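import Mathlib
import Pool.Agent.Y669.MainC

/-! The rank over a subfield of a cyclotomic field is at most the sum of the multiplicities of the
characters. -/

set_option autoImplicit false

namespace Pool.Agent.Q17.TP

open NumberField IsCyclotomicExtension WeierstrassCurve TensorProduct Finset
open Pool.Agent.Y669 (PartC gact gact_mul proj proj_apply proj_gact part_le)

section

variable {F : Type} [Field F] [NumberField F] [DecidableEq F]

/-- the projections lie in the eigenspaces -/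
lemma proj_mem (W : WeierstrassCurve ℚ) (χ : (F ≃ₐ[ℚ] F) →* ℂˣ)
    (P : (W.baseChange F).toAffine.Point) : proj W χ P ∈ PartC F χ W := by
  intro σ
  change LinearMap.baseChange ℂ (gact W σ).toIntLinearMap (proj W χ P) = ((χ σ : ℂˣ) : ℂ) • proj W χ P
  rw [proj_apply, map_sum, smul_sum]
  refine Fintype.sum_equiv (Equiv.mulLeft σ) _ _ fun τ => ?_
  rw [Equiv.coe_mulLeft, map_smul, LinearMap.baseChange_tmul, smul_smul, gact_mul, map_mul,
    Units.val_mul, mul_inv_rev, mul_comm ((χ τ : ℂˣ) : ℂ)⁻¹, ← mul_assoc,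
    mul_inv_cancel₀ (Units.ne_zero _), one_mul]
  rfl

/-- a nontrivial character on a group that fixes the point -/
lemma proj_zero (W : WeierstrassCurve ℚ) (χ : (F ≃ₐ[ℚ] F) →* ℂˣ)
    {P : (W.baseChange F).toAffine.Point} {τ : F ≃ₐ[ℚ] F} (h : gact W τ P = P) (hτ : χ τ ≠ 1) :
    proj W χ P = 0 := by
  have h1 := proj_gact W χ τ P
  rw [h] at h1
  have h2 : (((χ τ : ℂˣ) : ℂ) - 1) • proj W χ P = 0 := by
    rw [sub_smul, one_smul, ← h1, sub_self]
  rcases smul_eq_zero.1 h2 with h3 | h3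
  · exfalso
    apply hτ
    apply Units.ext
    rw [Units.val_one]
    exact sub_eq_zero.1 h3
  · exact h3

end

section

variable (N : ℕ) [NeZero N] {F : Type} [Field F] [NumberField F] [IsCyclotomicExtension {N} ℚ F]
  [DecidableEq F]

/-- the character of the Galois group given by a Dirichlet character -/
noncomputable def ch (ψ : DirichletCharacter ℂ N) : (F ≃ₐ[ℚ] F) →* ℂˣ :=
  ψ.toUnitHom.comp (IsCyclotomicExtension.Rat.galEquivZMod N F).toMonoidHom

lemma ch_apply (ψ : DirichletCharacter ℂ N) (σ : F ≃ₐ[ℚ] F) : ((ch N ψ σ : ℂˣ) : ℂ) =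
    ψ (((IsCyclotomicExtension.Rat.galEquivZMod N F) σ : (ZMod N)ˣ) : ZMod N) :=
  MulChar.coe_toUnitHom _ _

open scoped Classical in
lemma sum_ch (σ : F ≃ₐ[ℚ] F) : ∑ ψ : DirichletCharacter ℂ N, ((ch N ψ σ : ℂˣ) : ℂ)⁻¹ =
    if σ = 1 then (N.totient : ℂ) else 0 := by
  have h1 : ∀ ψ : DirichletCharacter ℂ N, ((ch N ψ σ : ℂˣ) : ℂ)⁻¹ =
      ψ ((((IsCyclotomicExtension.Rat.galEquivZMod N F) σ⁻¹ : (ZMod N)ˣ) : ZMod N)) := by
    intro ψ
    rw [← ch_apply, map_inv, Units.val_inv_eq_inv_val]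
  rw [sum_congr rfl fun ψ _ => h1 ψ, DirichletCharacter.sum_characters_eq]
  have h2 : ((((IsCyclotomicExtension.Rat.galEquivZMod N F) σ⁻¹ : (ZMod N)ˣ) : ZMod N) = 1) ↔
      σ = 1 := by
    rw [Units.val_eq_one, EmbeddingLike.map_eq_one_iff, inv_eq_one]
  by_cases h : σ = 1
  · rw [if_pos h, if_pos (h2.2 h)]
  · rw [if_neg h, if_neg (fun h' => h (h2.1 h'))]

/-- the Fourier inversion -/
lemma fourier (W : WeierstrassCurve ℚ) (P : (W.baseChange F).toAffine.Point) :
    ∑ ψ : DirichletCharacter ℂ N, proj W (ch N ψ) P = (N.totient : ℂ) • ((1 : ℂ) ⊗ₜ[ℤ] P) := by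
  classical
  have hgal : IsGalois ℚ F := IsCyclotomicExtension.isGalois {N} ℚ F
  simp only [proj_apply]
  rw [sum_comm]
  have h1 : ∀ τ : F ≃ₐ[ℚ] F, ∑ ψ : DirichletCharacter ℂ N,
      ((ch N ψ τ : ℂˣ) : ℂ)⁻¹ • ((1 : ℂ) ⊗ₜ[ℤ] gact W τ P) =
      (if τ = 1 then (N.totient : ℂ) else 0) • ((1 : ℂ) ⊗ₜ[ℤ] gact W τ P) := by
    intro τ
    rw [← sum_smul, sum_ch]
  rw [sum_congr rfl fun τ _ => h1 τ, Finset.sum_eq_single (1 : F ≃ₐ[ℚ] F)]
  · rw [if_pos rfl]
    congr 2
    cases P with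
    | zero => exact map_zero _
    | some x y h =>
      obtain ⟨h1, h2⟩ := Pool.Agent.Y669.gact_some (W := W) (1 : F ≃ₐ[ℚ] F) h
      rw [h2]
      rfl
  · intro τ _ hτ
    rw [if_neg hτ, zero_smul]
  · intro h
    exact absurd (mem_univ _) h

lemma ch_one (τ : F ≃ₐ[ℚ] F) : ch N (1 : DirichletCharacter ℂ N) τ = 1 := by
  apply Units.ext
  rw [ch_apply, Units.val_one, MulChar.one_apply_coe]

/-- the sum of the conjugates is rational -/
lemma sum_rat [IsGalois ℚ F] (W : WeierstrassCurve ℚ) (P : (W.baseChange F).toAffine.Point) :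
    ∃ Q : (W.baseChange ℚ).toAffine.Point,
      Affine.Point.map (W' := W.toAffine) (Algebra.ofId ℚ F) Q = ∑ τ : F ≃ₐ[ℚ] F, gact W τ P := by
  obtain ⟨R, hR⟩ : ∃ R, R = ∑ τ : F ≃ₐ[ℚ] F, gact W τ P := ⟨_, rfl⟩
  rw [← hR]
  have hfix : ∀ σ : F ≃ₐ[ℚ] F, gact W σ R = R := by
    intro σ
    rw [hR, map_sum]
    refine Fintype.sum_equiv (Equiv.mulLeft σ) _ _ fun τ => ?_
    rw [Equiv.coe_mulLeft, gact_mul]
  clear hR
  rcases R with _ | ⟨x, y, hxy⟩
  · exact ⟨0, map_zero _⟩
  · have h1 : ∀ σ : F ≃ₐ[ℚ] F, σ x = x ∧ σ y = y := by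
      intro σ
      have h2 := hfix σ
      obtain ⟨h3, h4⟩ := Pool.Agent.Y669.gact_some (W := W) σ hxy
      rw [h4] at h2
      simpa only [Affine.Point.some.injEq] using h2
    obtain ⟨a, ha⟩ := IntermediateField.mem_bot.1
      ((IsGalois.mem_bot_iff_fixed (F := ℚ) x).2 fun σ => (h1 σ).1)
    obtain ⟨b, hb⟩ := IntermediateField.mem_bot.1
      ((IsGalois.mem_bot_iff_fixed (F := ℚ) y).2 fun σ => (h1 σ).2)
    have hn1 : (W.baseChange F).toAffine.Nonsingular (Algebra.ofId ℚ F a) (Algebra.ofId ℚ F b) := by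
      have e1 : Algebra.ofId ℚ F a = x := ha
      have e2 : Algebra.ofId ℚ F b = y := hb
      rw [e1, e2]
      exact hxy
    have hn : (W.baseChange ℚ).toAffine.Nonsingular a b :=
      (W.toAffine.baseChange_nonsingular (Algebra.ofId ℚ F).injective a b).1 hn1
    refine ⟨Affine.Point.some a b hn, ?_⟩
    rw [Affine.Point.map_some (W' := W.toAffine) (Algebra.ofId ℚ F) hn]
    apply Pool.Agent.W605.AT.some_congr
    · exact ha
    · exact hb

lemma finrank_sup {V ι : Type} [AddCommGroup V] [Module ℂ V] [Module.Finite ℂ V] [DecidableEq ι]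
    (s : Finset ι) (p : ι → Submodule ℂ V) :
    Module.finrank ℂ (s.sup p : Submodule ℂ V) ≤ ∑ i ∈ s, Module.finrank ℂ (p i) := by
  induction s using Finset.induction_on with
  | empty => simp
  | insert a s ha ih =>
    rw [Finset.sup_insert, Finset.sum_insert ha]
    refine (Submodule.finrank_add_le_finrank_add_finrank _ _).trans ?_
    omega

open scoped Classical in
/-- the characters that are trivial on the Galois group over `L` -/
noncomputable def Ch {L : Type} [Field L] [NumberField L] (f : L →ₐ[ℚ] F) :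
    Finset (DirichletCharacter ℂ N) :=
  univ.filter fun ψ => ∀ τ : F ≃ₐ[ℚ] F, (∀ x : L, τ (f x) = f x) → ch N ψ τ = 1

open scoped Classical in
/-- **the rank over a subfield and the multiplicities** -/
theorem rank_le_sum [IsGalois ℚ F] (W : WeierstrassCurve ℚ)
    (hfin : Module.Finite ℤ (W.baseChange F).toAffine.Point) {L : Type} [Field L] [NumberField L]
    (f : L →ₐ[ℚ] F) :
    Module.finrank ℤ (W.baseChange L).toAffine.Point ≤ Module.finrank ℤ W.toAffine.Point +
      ∑ ψ ∈ (Ch N f).erase 1, Module.finrank ℂ (PartC F (ch N ψ) W) := by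
  obtain ⟨j, hj⟩ : ∃ j : (W.baseChange L).toAffine.Point →+ (W.baseChange F).toAffine.Point,
      j = Affine.Point.map (W' := W.toAffine) f := ⟨_, rfl⟩
  have hji : Function.Injective j := by
    rw [hj]
    exact Affine.Point.map_injective _
  obtain ⟨j0, hj0⟩ : ∃ j : (W.baseChange ℚ).toAffine.Point →+ (W.baseChange F).toAffine.Point,
      j = Affine.Point.map (W' := W.toAffine) (Algebra.ofId ℚ F) := ⟨_, rfl⟩
  have hj0i : Function.Injective j0 := by
    rw [hj0]
    exact Affine.Point.map_injective _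
  have hfinL : Module.Finite ℤ (W.baseChange L).toAffine.Point :=
    Module.Finite.of_injective j.toIntLinearMap hji
  have hfinQ : Module.Finite ℤ (W.baseChange ℚ).toAffine.Point :=
    Module.Finite.of_injective j0.toIntLinearMap hj0i
  let J : (ℂ ⊗[ℤ] (W.baseChange L).toAffine.Point) →ₗ[ℂ] (ℂ ⊗[ℤ] (W.baseChange F).toAffine.Point) :=
    LinearMap.baseChange ℂ j.toIntLinearMap
  let J0 : (ℂ ⊗[ℤ] (W.baseChange ℚ).toAffine.Point) →ₗ[ℂ] (ℂ ⊗[ℤ] (W.baseChange F).toAffine.Point) :=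
    LinearMap.baseChange ℂ j0.toIntLinearMap
  have hJ : Function.Injective J := by
    have h1 : Module.Flat ℤ ℂ := inferInstance
    exact Module.Flat.lTensor_preserves_injective_linearMap (M := ℂ) j.toIntLinearMap hji
  have e1 : Module.finrank ℂ (ℂ ⊗[ℤ] (W.baseChange L).toAffine.Point) =
      Module.finrank ℤ (W.baseChange L).toAffine.Point :=
    (TensorProduct.isBaseChange ℤ (W.baseChange L).toAffine.Point ℂ).finrank_eq
  have e2 : Module.finrank ℂ (ℂ ⊗[ℤ] (W.baseChange ℚ).toAffine.Point) =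
      Module.finrank ℤ (W.baseChange ℚ).toAffine.Point :=
    (TensorProduct.isBaseChange ℤ (W.baseChange ℚ).toAffine.Point ℂ).finrank_eq
  have hbc : W.baseChange ℚ = W := by
    unfold WeierstrassCurve.baseChange
    rw [Algebra.algebraMap_self, WeierstrassCurve.map_id]
  have e3 : Module.finrank ℤ (W.baseChange ℚ).toAffine.Point = Module.finrank ℤ W.toAffine.Point := by
    rw [hbc]
  obtain ⟨U, hU⟩ : ∃ U : Submodule ℂ (ℂ ⊗[ℤ] (W.baseChange F).toAffine.Point), U =
      LinearMap.range J0 ⊔ ((Ch N f).erase 1).sup (fun ψ => PartC F (ch N ψ) W) := ⟨_, rfl⟩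
  have hmem : ∀ P, (1 : ℂ) ⊗ₜ[ℤ] (j P) ∈ U := by
    intro P
    have hfix : ∀ τ : F ≃ₐ[ℚ] F, (∀ x : L, τ (f x) = f x) → gact W τ (j P) = j P := by
      intro τ hτ
      rw [hj]
      rcases P with _ | ⟨x, y, hxy⟩
      · exact map_zero _
      · obtain ⟨h1, h2⟩ : ∃ h', Affine.Point.map (W' := W.toAffine) f (Affine.Point.some x y hxy) =
            Affine.Point.some (f x) (f y) h' :=
          ⟨_, Affine.Point.map_some (W' := W.toAffine) f hxy⟩
        rw [h2]
        obtain ⟨h3, h4⟩ := Pool.Agent.Y669.gact_some (W := W) τ h1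
        rw [h4]
        exact Pool.Agent.W605.AT.some_congr _ _ (hτ x) (hτ y)
    have h1 := fourier N W (j P)
    have hN : (N.totient : ℂ) ≠ 0 := by
      have := Nat.totient_pos.2 (Nat.pos_of_ne_zero (NeZero.ne N))
      exact_mod_cast this.ne'
    have h2 : (1 : ℂ) ⊗ₜ[ℤ] (j P) = (N.totient : ℂ)⁻¹ • ∑ ψ : DirichletCharacter ℂ N,
        proj W (ch N ψ) (j P) := by
      rw [h1, smul_smul, inv_mul_cancel₀ hN, one_smul]
    rw [h2]
    refine Submodule.smul_mem _ _ (Submodule.sum_mem _ fun ψ _ => ?_)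
    by_cases h3 : ψ ∈ Ch N f
    · by_cases h4 : ψ = 1
      · rw [hU]
        apply Submodule.mem_sup_left
        obtain ⟨Q, hQ⟩ := sum_rat (F := F) W (j P)
        refine ⟨(1 : ℂ) ⊗ₜ[ℤ] Q, ?_⟩
        change LinearMap.baseChange ℂ j0.toIntLinearMap ((1 : ℂ) ⊗ₜ[ℤ] Q) = _
        rw [LinearMap.baseChange_tmul]
        have h5 : j0.toIntLinearMap Q = ∑ τ : F ≃ₐ[ℚ] F, gact W τ (j P) := by
          rw [← hQ, hj0]
          rfl
        rw [h5, h4, proj_apply, TensorProduct.tmul_sum]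
        refine sum_congr rfl fun τ _ => ?_
        rw [ch_one, Units.val_one, inv_one, one_smul]
      · rw [hU]
        apply Submodule.mem_sup_right
        have h5 : PartC F (ch N ψ) W ≤ ((Ch N f).erase 1).sup (fun ψ => PartC F (ch N ψ) W) :=
          Finset.le_sup (f := fun ψ => PartC F (ch N ψ) W) (mem_erase.2 ⟨h4, h3⟩)
        exact h5 (proj_mem W (ch N ψ) (j P))
    · have h4 : ∃ τ : F ≃ₐ[ℚ] F, (∀ x : L, τ (f x) = f x) ∧ ch N ψ τ ≠ 1 := by
        by_contra hcon
        push Not at hcon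
        apply h3
        unfold Ch
        rw [mem_filter]
        exact ⟨mem_univ _, hcon⟩
      obtain ⟨τ, h5, h6⟩ := h4
      rw [proj_zero W (ch N ψ) (hfix τ h5) h6]
      exact Submodule.zero_mem _
  have hrange : LinearMap.range J ≤ U := by
    rintro _ ⟨v, rfl⟩
    induction v using TensorProduct.induction_on with
    | zero => rw [map_zero]; exact Submodule.zero_mem _
    | tmul c P =>
      have h1 : J (c ⊗ₜ[ℤ] P) = c • ((1 : ℂ) ⊗ₜ[ℤ] (j P)) := by
        change LinearMap.baseChange ℂ j.toIntLinearMap (c ⊗ₜ[ℤ] P) = _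
        rw [LinearMap.baseChange_tmul, TensorProduct.smul_tmul', smul_eq_mul, mul_one]
        rfl
      rw [h1]
      exact Submodule.smul_mem _ _ (hmem P)
    | add x y hx hy =>
      rw [map_add]
      exact Submodule.add_mem _ hx hy
  calc Module.finrank ℤ (W.baseChange L).toAffine.Point
      = Module.finrank ℂ (ℂ ⊗[ℤ] (W.baseChange L).toAffine.Point) := e1.symm
    _ = Module.finrank ℂ (LinearMap.range J) := (LinearMap.finrank_range_of_inj hJ).symm
    _ ≤ Module.finrank ℂ U := Submodule.finrank_mono hrange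
    _ ≤ Module.finrank ℂ (LinearMap.range J0) +
        Module.finrank ℂ (((Ch N f).erase 1).sup (fun ψ => PartC F (ch N ψ) W) :
          Submodule ℂ (ℂ ⊗[ℤ] (W.baseChange F).toAffine.Point)) := by
        rw [hU]
        exact Submodule.finrank_add_le_finrank_add_finrank _ _
    _ ≤ Module.finrank ℤ W.toAffine.Point +
        ∑ ψ ∈ (Ch N f).erase 1, Module.finrank ℂ (PartC F (ch N ψ) W) := by
        refine add_le_add ?_ (finrank_sup _ _)
        rw [← e3, ← e2]
        exact LinearMap.finrank_range_le J0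

end

end Pool.Agent.Q17.TP
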