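import Mathlib
import Pool.Agent.TH344.DT.Fin2
import Pool.Agent.Q17.TP.Fou

/-! The average rank over an abelian number field of 2-power degree. -/

set_option autoImplicit false

namespace Pool.Agent.Q17.TP

open NumberField IsCyclotomicExtension WeierstrassCurve TensorProduct Finset
open Pool.Agent.Y669 (PartC gact gact_mul proj proj_apply proj_gact part_le)
open Pool.Agent.W307.RT (Cv Sh HasT)

section

variable (N : ℕ) [NeZero N] {F : Type} [Field F] [NumberField F] [IsCyclotomicExtension {N} ℚ F]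

/-- the Galois group over the subfield -/
lemma mem_fix {L : Type} [Field L] [NumberField L] (f : L →ₐ[ℚ] F) (τ : F ≃ₐ[ℚ] F) :
    τ ∈ f.fieldRange.fixingSubgroup ↔ ∀ x : L, τ (f x) = f x := by
  rw [IntermediateField.mem_fixingSubgroup_iff]
  constructor
  · intro h x
    exact h _ ⟨x, rfl⟩
  · rintro h _ ⟨x, rfl⟩
    exact h x

lemma index_fix [IsGalois ℚ F] {L : Type} [Field L] [NumberField L] (f : L →ₐ[ℚ] F) :
    f.fieldRange.fixingSubgroup.index = Module.finrank ℚ L := by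
  rw [← IntermediateField.finrank_eq_fixingSubgroup_index]
  exact (LinearEquiv.finrank_eq (AlgEquiv.ofInjectiveField f).toLinearEquiv).symm

/-- the number of the characters -/
lemma card_Ch [IsGalois ℚ F] {L : Type} [Field L] [NumberField L] (f : L →ₐ[ℚ] F) :
    (Ch N f).card = Module.finrank ℚ L := by
  classical
  obtain ⟨H, hH⟩ : ∃ H, H = f.fieldRange.fixingSubgroup := ⟨_, rfl⟩
  have hmem : ∀ τ : F ≃ₐ[ℚ] F, τ ∈ H ↔ ∀ x : L, τ (f x) = f x := by
    intro τ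
    rw [hH]
    exact mem_fix f τ
  have h1 : ∀ ψ : DirichletCharacter ℂ N, ∑ h : H, ((ch N ψ (h : F ≃ₐ[ℚ] F) : ℂˣ) : ℂ)⁻¹ =
      if ψ ∈ Ch N f then (Fintype.card H : ℂ) else 0 := by
    intro ψ
    by_cases hψ : ψ ∈ Ch N f
    · rw [if_pos hψ]
      have h2 := hψ
      unfold Ch at h2
      rw [mem_filter] at h2
      rw [Finset.sum_congr rfl fun h _ => by
        rw [h2.2 _ ((hmem _).1 h.2), Units.val_one, inv_one]]
      simp
    · rw [if_neg hψ]
      have h2 : ∃ τ : F ≃ₐ[ℚ] F, τ ∈ H ∧ ch N ψ τ ≠ 1 := by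
        by_contra hcon
        push Not at hcon
        apply hψ
        unfold Ch
        rw [mem_filter]
        exact ⟨mem_univ _, fun τ hτ => hcon τ ((hmem τ).2 hτ)⟩
      obtain ⟨τ, h3, h4⟩ := h2
      have h5 := sum_hom_units_eq_zero (G := H) (R := ℂ)
        ((Units.coeHom ℂ).comp (((ch N ψ)⁻¹).comp H.subtype)) (by
          intro h6
          apply h4
          have h7 := DFunLike.congr_fun h6 ⟨τ, h3⟩
          have h8 : (((ch N ψ τ)⁻¹ : ℂˣ) : ℂ) = 1 := h7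
          have h9 : (ch N ψ τ)⁻¹ = 1 := Units.ext h8
          exact inv_eq_one.1 h9)
      rw [← h5]
      refine Finset.sum_congr rfl fun h _ => ?_
      rw [← Units.val_inv_eq_inv_val]
      rfl
  have h2 : ∑ ψ : DirichletCharacter ℂ N, ∑ h : H, ((ch N ψ (h : F ≃ₐ[ℚ] F) : ℂˣ) : ℂ)⁻¹ =
      (N.totient : ℂ) := by
    rw [Finset.sum_comm, Finset.sum_congr rfl fun (h : H) _ => sum_ch N (h : F ≃ₐ[ℚ] F),
      Finset.sum_eq_single (1 : H)]
    · exact if_pos rfl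
    · intro h _ hh
      rw [if_neg]
      intro h'
      exact hh (Subtype.ext h')
    · intro h
      exact absurd (mem_univ _) h
  rw [Finset.sum_congr rfl fun ψ _ => h1 ψ, ← Finset.sum_filter, Finset.sum_const, nsmul_eq_mul] at h2
  have h3 : (univ.filter (fun ψ : DirichletCharacter ℂ N => ψ ∈ Ch N f)) = Ch N f := by
    ext ψ
    simp
  rw [h3] at h2
  have h4 : (Ch N f).card * Fintype.card H = N.totient := by exact_mod_cast h2
  have h5 : Fintype.card (F ≃ₐ[ℚ] F) = N.totient := by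
    rw [← ZMod.card_units_eq_totient]
    exact Fintype.card_congr (IsCyclotomicExtension.Rat.galEquivZMod N F).toEquiv
  have h6 := H.index_mul_card
  rw [Nat.card_eq_fintype_card, Nat.card_eq_fintype_card, h5, ← h4] at h6
  have h7 : 0 < Fintype.card H := Fintype.card_pos
  rw [← index_fix f, ← hH]
  exact (Nat.eq_of_mul_eq_mul_right h7 h6).symm

lemma ch_pow [IsGalois ℚ F] {L : Type} [Field L] [NumberField L] (f : L →ₐ[ℚ] F) {n : ℕ}
    (hn : Module.finrank ℚ L = 2 ^ n) {ψ : DirichletCharacter ℂ N} (hψ : ψ ∈ Ch N f)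
    (τ : F ≃ₐ[ℚ] F) : ch N ψ τ ^ (2 ^ n) = 1 := by
  classical
  have hab : ∀ σ τ : F ≃ₐ[ℚ] F, σ * τ = τ * σ := by
    intro σ τ
    apply (IsCyclotomicExtension.Rat.galEquivZMod N F).injective
    rw [map_mul, map_mul, mul_comm]
  obtain ⟨H, hH⟩ : ∃ H, H = f.fieldRange.fixingSubgroup := ⟨_, rfl⟩
  have hN : H.Normal := ⟨fun x hx y => by rw [hab y x, mul_inv_cancel_right]; exact hx⟩
  have h1 := H.pow_index_mem τ
  have h2 : H.index = 2 ^ n := by
    rw [hH, index_fix f, hn]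
  rw [h2, hH, mem_fix] at h1
  unfold Ch at hψ
  rw [mem_filter] at hψ
  rw [← map_pow]
  exact hψ.2 _ h1

lemma ch_inj {ψ : DirichletCharacter ℂ N} (hψ : ψ ≠ 1) : ∃ τ : F ≃ₐ[ℚ] F, ch N ψ τ ≠ 1 := by
  classical
  by_contra hcon
  push Not at hcon
  apply hψ
  apply MulChar.ext
  intro a
  obtain ⟨τ, hτ⟩ := (IsCyclotomicExtension.Rat.galEquivZMod N F).surjective a
  rw [← hτ, ← ch_apply, hcon, Units.val_one, MulChar.one_apply_coe]

end

/-- finite generation -/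
lemma fin_E {F : Type} [Field F] [NumberField F] [DecidableEq F] {H : ℕ} {c : ℤ × ℤ}
    (hc : c ∈ Cv 2 H) : Module.Finite ℤ ((Sh c.1 c.2).baseChange F).toAffine.Point := by
  classical
  obtain ⟨P, -, hP⟩ := Pool.Agent.W513.FK.parf
  unfold Cv at hc
  obtain ⟨-, hD, -, -, -, hT⟩ := mem_filter.1 hc
  obtain ⟨-, -, -, -, -, e1, e2, e3, he, -, -⟩ := hP c hD hT
  obtain ⟨h12, h13, h23⟩ := Pool.Agent.W402.FK.dist c.1 c.2 e1 e2 e3 hD he
  have h0 : (Sh c.1 c.2).baseChange F = Pool.Agent.H437R2.Man.MW.crv (-(e1 : F)) (-(e2 : F))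
      (-(e3 : F)) := by
    rw [Pool.Agent.Y669.sh_crv he, Pool.Agent.Y669.crv_bc]
    unfold Pool.Agent.H437R2.Man.MW.crv Pool.Agent.H918R3.crv
    simp only [map_intCast]
    congr 1
    · ring
    · ring
    · ring
  have h1 := Pool.Agent.H437R2.Man.MW.pt_fg (K := F) (e1 := -(e1 : F)) (e2 := -(e2 : F))
    (e3 := -(e3 : F)) (fun h => h12 (by exact_mod_cast neg_injective h))
    (fun h => h13 (by exact_mod_cast neg_injective h))
    (fun h => h23 (by exact_mod_cast neg_injective h))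
  unfold Pool.Agent.H437R2.Man.MW.Pt at h1
  rw [h0]
  exact Module.Finite.iff_addGroup_fg.2 h1

open scoped Classical in
/-- **the average over an abelian field of 2-power degree** -/
theorem avgL (N : ℕ) [NeZero N] {F : Type} [Field F] [NumberField F]
    [IsCyclotomicExtension {N} ℚ F] {L : Type} [Field L] [NumberField L]
    (f : L →ₐ[ℚ] F) {n : ℕ} (hn : Module.finrank ℚ L = 2 ^ n) :
    ∃ C : ℝ, ∀ H : ℕ, ∑ c ∈ Cv 2 H, (4 : ℝ) ^ ((Module.finrank ℤ
      ((Sh c.1 c.2).baseChange L).toAffine.Point : ℝ) / (2 : ℝ) ^ n) ≤ C * (Cv 2 H).card := by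
  have hgal : IsGalois ℚ F := IsCyclotomicExtension.isGalois {N} ℚ F
  have hch : ∀ ψ : DirichletCharacter ℂ N, ∃ C : ℝ, ψ ∈ (Ch N f).erase 1 → ∀ H : ℕ,
      ∑ c ∈ Cv 2 H, (4 : ℝ) ^ (Module.finrank ℂ (PartC F (ch N ψ) (Sh c.1 c.2))) ≤
        C * (Cv 2 H).card := by
    intro ψ
    by_cases hψ : ψ ∈ (Ch N f).erase 1
    · rw [mem_erase] at hψ
      have hex : ∃ k : ℕ, ∀ σ : F ≃ₐ[ℚ] F, ch N ψ σ ^ (2 ^ k) = 1 :=
        ⟨n, fun σ => ch_pow N f hn hψ.2 σ⟩
      obtain ⟨b, hb⟩ : ∃ b, b = Nat.find hex := ⟨_, rfl⟩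
      have h1 := Nat.find_spec hex
      rw [← hb] at h1
      rcases b with _ | a
      · obtain ⟨σ, hσ⟩ := ch_inj N (F := F) hψ.1
        exact absurd (by simpa using h1 σ) hσ
      · have h2 : ∃ σ : F ≃ₐ[ℚ] F, ch N ψ σ ^ (2 ^ a) ≠ 1 := by
          by_contra hcon
          push Not at hcon
          have := Nat.find_min' hex hcon
          omega
        obtain ⟨C, hC⟩ := Pool.Agent.Y669.avg_char N (ch N ψ) a h1 h2
        exact ⟨C, fun _ => hC⟩
    · exact ⟨0, fun h => absurd h hψ⟩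
  choose C hC using hch
  obtain ⟨C0, hC0⟩ := Pool.Agent.W307.FK.finh
  refine ⟨C0 + ∑ ψ ∈ (Ch N f).erase 1, C ψ, fun H => ?_⟩
  have hpt : ∀ c ∈ Cv 2 H, (4 : ℝ) ^ ((Module.finrank ℤ
      ((Sh c.1 c.2).baseChange L).toAffine.Point : ℝ) / (2 : ℝ) ^ n) ≤
      (4 : ℝ) ^ (Module.finrank ℤ (Sh c.1 c.2).toAffine.Point) +
      ∑ ψ ∈ (Ch N f).erase 1, (4 : ℝ) ^ (Module.finrank ℂ (PartC F (ch N ψ) (Sh c.1 c.2))) := by
    intro c hc
    have h1 := rank_le_sum N (Sh c.1 c.2) (fin_E (F := F) hc) f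
    obtain ⟨m, hm⟩ : ∃ m : DirichletCharacter ℂ N → ℕ, m = fun ψ => if ψ = 1 then
      Module.finrank ℤ (Sh c.1 c.2).toAffine.Point else
      Module.finrank ℂ (PartC F (ch N ψ) (Sh c.1 c.2)) := ⟨_, rfl⟩
    have h1C : (1 : DirichletCharacter ℂ N) ∈ Ch N f := by
      unfold Ch
      rw [mem_filter]
      exact ⟨mem_univ _, fun τ _ => ch_one N τ⟩
    have hsum : ∀ g : ℕ → ℝ, ∑ ψ ∈ Ch N f, g (m ψ) =
        g (Module.finrank ℤ (Sh c.1 c.2).toAffine.Point) +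
        ∑ ψ ∈ (Ch N f).erase 1, g (Module.finrank ℂ (PartC F (ch N ψ) (Sh c.1 c.2))) := by
      intro g
      rw [← Finset.add_sum_erase _ _ h1C]
      congr 1
      · rw [hm]
        simp
      · refine Finset.sum_congr rfl fun ψ hψ => ?_
        rw [hm]
        simp only [if_neg (mem_erase.1 hψ).1]
    rw [← hsum fun k => (4 : ℝ) ^ k]
    have h2 : (Module.finrank ℤ ((Sh c.1 c.2).baseChange L).toAffine.Point : ℝ) ≤
        ∑ ψ ∈ Ch N f, (m ψ : ℝ) := by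
      rw [hsum fun k => (k : ℝ)]
      exact_mod_cast h1
    obtain ⟨φ, hφ, hmax⟩ := Finset.exists_max_image (Ch N f) m ⟨1, h1C⟩
    have h3 : ∑ ψ ∈ Ch N f, (m ψ : ℝ) ≤ 2 ^ n * m φ := by
      calc ∑ ψ ∈ Ch N f, (m ψ : ℝ) ≤ ∑ _ψ ∈ Ch N f, (m φ : ℝ) :=
            Finset.sum_le_sum fun ψ hψ => by exact_mod_cast hmax ψ hψ
        _ = 2 ^ n * m φ := by
            rw [Finset.sum_const, card_Ch, hn, nsmul_eq_mul]
            push_cast
            ring
    have h4 : (Module.finrank ℤ ((Sh c.1 c.2).baseChange L).toAffine.Point : ℝ) / (2 : ℝ) ^ n ≤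
        m φ := by
      rw [div_le_iff₀ (by positivity), mul_comm]
      exact h2.trans h3
    calc (4 : ℝ) ^ ((Module.finrank ℤ ((Sh c.1 c.2).baseChange L).toAffine.Point : ℝ) / (2 : ℝ) ^ n)
        ≤ (4 : ℝ) ^ ((m φ : ℕ) : ℝ) := Real.rpow_le_rpow_of_exponent_le (by norm_num) h4
      _ = (4 : ℝ) ^ (m φ) := Real.rpow_natCast _ _
      _ ≤ ∑ ψ ∈ Ch N f, (4 : ℝ) ^ (m ψ) :=
          Finset.single_le_sum (f := fun ψ => (4 : ℝ) ^ (m ψ)) (fun ψ _ => by positivity) hφ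
  calc ∑ c ∈ Cv 2 H, (4 : ℝ) ^ ((Module.finrank ℤ
      ((Sh c.1 c.2).baseChange L).toAffine.Point : ℝ) / (2 : ℝ) ^ n)
      ≤ ∑ c ∈ Cv 2 H, ((4 : ℝ) ^ (Module.finrank ℤ (Sh c.1 c.2).toAffine.Point) +
        ∑ ψ ∈ (Ch N f).erase 1, (4 : ℝ) ^ (Module.finrank ℂ (PartC F (ch N ψ) (Sh c.1 c.2)))) :=
        Finset.sum_le_sum hpt
    _ = ∑ c ∈ Cv 2 H, (4 : ℝ) ^ (Module.finrank ℤ (Sh c.1 c.2).toAffine.Point) +
        ∑ ψ ∈ (Ch N f).erase 1, ∑ c ∈ Cv 2 H,
          (4 : ℝ) ^ (Module.finrank ℂ (PartC F (ch N ψ) (Sh c.1 c.2))) := by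
        rw [Finset.sum_add_distrib, Finset.sum_comm]
    _ ≤ C0 * (Cv 2 H).card + ∑ ψ ∈ (Ch N f).erase 1, C ψ * (Cv 2 H).card := by
        refine add_le_add ?_ (Finset.sum_le_sum fun ψ hψ => hC ψ hψ H)
        refine le_trans (Finset.sum_le_sum fun c hc => ?_) (hC0 H).2
        have h1 : ((2 : ℝ) ^ Module.finrank ℤ (Sh c.1 c.2).toAffine.Point) ≤
            ((Pool.Agent.W307.SE.SelR c.1 c.2).ncard : ℝ) := by
          exact_mod_cast Pool.Agent.TH344.DT.rank_le2 hc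
        have h2 : (4 : ℝ) ^ Module.finrank ℤ (Sh c.1 c.2).toAffine.Point =
            ((2 : ℝ) ^ Module.finrank ℤ (Sh c.1 c.2).toAffine.Point) ^ 2 := by
          rw [← pow_mul, mul_comm, pow_mul]
          norm_num
        rw [h2]
        exact pow_le_pow_left₀ (by positivity) h1 2
    _ = _ := by
        rw [add_mul, Finset.sum_mul]

end Pool.Agent.Q17.TP
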