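import Mathlib
import Pool.Agent.Q8.FI.Cnt
import Pool.Agent.Q17.IG.Prp
import Pool.Agent.Q17.TP.Avg

/-! From the curves with full rational 2-torsion to the curves with a rational cyclic subgroup of
order 4: isogenies and the multiplicities of the characters. -/

set_option autoImplicit false

namespace Pool.Agent.Q17.TP

open Finset WeierstrassCurve TensorProduct
open Pool.Agent.Y669 (PartC)
open Pool.Agent.W307.RT (Cv Sh HasT)
open Pool.Agent.TH841.SH.D (Pt act)
open Pool.Agent.Y676.IS (NH)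
open Pool.Agent.Q17.IG (Lk Cyc)
open Pool.Agent.Q8.FI (F4 Rel RelP KK quot_of sum_phi ratio)

lemma lk_of {c m : ℤ × ℤ} (h : Rel c m) : ∃ (e q : ℤ) (u : ℕ) (r : ℤ), Lk c m e q u r := by
  obtain ⟨t, s, u, h1, h2, hs, hp, hm, hu, hA, hB, hc, hm'⟩ := h
  obtain ⟨r, hr⟩ : (u : ℤ) ^ 2 ∣ -2 * t := Pool.Agent.Q8.FI.sq_dvd_root hu (by
    have := Pool.Agent.Q8.FI.root_d1 t s
    rw [hA, hB] at this
    exact this)
  refine ⟨t, s, u, r, h1, h2, ?_, hc, Nat.pos_of_ne_zero hu, ?_, ?_, hr.symm, hm'⟩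
  · rw [h1, h2, Pool.Agent.Q8.FI.disc_c]
    refine mul_ne_zero (pow_ne_zero 4 hs) (mul_ne_zero ?_ ?_)
    · intro h
      apply hm
      linarith
    · intro h
      apply hp
      linarith
  · rw [← hA]
    unfold Pool.Agent.Q8.FI.dA
    ring
  · rw [← hB]
    unfold Pool.Agent.Q8.FI.dB
    ring

/-- the transfer of an average -/
theorem transfer4 {g g' : ℤ × ℤ → ℝ} (hg' : ∀ m, 0 ≤ g' m)
    (h : ∀ (c m : ℤ × ℤ) (e q : ℤ) (u : ℕ) (r : ℤ) (H : ℕ), Lk c m e q u r → m ∈ Cv 2 H →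
      g c ≤ g' m)
    (hC : ∃ C : ℝ, ∀ H : ℕ, ∑ c ∈ Cv 2 H, g' c ≤ C * ((Cv 2 H).card : ℝ)) :
    ∃ C : ℝ, ∀ H : ℕ, ∑ c ∈ F4 H, g c ≤ C * ((F4 H).card : ℝ) := by
  classical
  obtain ⟨C, hC⟩ := hC
  obtain ⟨R, hR0, hR⟩ := ratio
  refine ⟨6 * |C| * R, fun H => ?_⟩
  rcases (F4 H).eq_empty_or_nonempty with he | hne
  · rw [he]
    simp
  choose! φ hφ using fun c (hc : c ∈ F4 H) => quot_of hc
  have h1 : ∑ c ∈ F4 H, g c ≤ ∑ c ∈ F4 H, g' (φ c) := by
    refine sum_le_sum fun c hc => ?_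
    obtain ⟨e, q, u, r, L⟩ := lk_of (hφ c hc).1
    exact h _ _ e q u r _ L (hφ c hc).2
  have h2 := sum_phi (S := F4 H) (T := Cv 2 (KK * H)) (φ := φ) (fun c hc => hφ c hc)
    (g := g') hg'
  have h3 : C * ((Cv 2 (KK * H)).card : ℝ) ≤ |C| * (R * ((F4 H).card : ℝ)) :=
    (mul_le_mul_of_nonneg_right (le_abs_self C) (Nat.cast_nonneg _)).trans
      (mul_le_mul_of_nonneg_left (hR H hne) (abs_nonneg C))
  calc ∑ c ∈ F4 H, g c ≤ 6 * ∑ m ∈ Cv 2 (KK * H), g' m := h1.trans h2
    _ ≤ 6 * (|C| * (R * ((F4 H).card : ℝ))) := by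
        have := (hC (KK * H)).trans h3
        linarith
    _ = _ := by ring

/-- isogenies and the multiplicities of the characters -/
theorem part_iso {F : Type} [Field F] [NumberField F] [DecidableEq F] (χ : (F ≃ₐ[ℚ] F) →* ℂˣ)
    {W W' : WeierstrassCurve ℚ} (θ : NH W W') (θ' : NH W' W)
    (h : ∀ (L : Type) [Field L] [Algebra ℚ L] (P : Pt W L), θ'.f L (θ.f L P) = P + P)
    (hfg : Module.Finite ℤ (W'.baseChange F).toAffine.Point) :
    Module.finrank ℂ (PartC F χ W) ≤ Module.finrank ℂ (PartC F χ W') := by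
  rename_i inst
  obtain rfl : inst = Classical.decEq F := Subsingleton.elim _ _
  let _ : DecidableEq F := Classical.decEq F
  let f : (W.baseChange F).toAffine.Point →+ (W'.baseChange F).toAffine.Point := θ.f F
  let f' : (W'.baseChange F).toAffine.Point →+ (W.baseChange F).toAffine.Point := θ'.f F
  have hff : ∀ P, f' (f P) = P + P := fun P => h F P
  have hnat : ∀ (σ : F ≃ₐ[ℚ] F) (P : (W.baseChange F).toAffine.Point),
      Affine.Point.map (W' := W'.toAffine) (σ : F →ₐ[ℚ] F) (f P) =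
        f (Affine.Point.map (W' := W.toAffine) (σ : F →ₐ[ℚ] F) P) := fun σ P =>
    θ.nat F F (σ : F →ₐ[ℚ] F) P
  let T := LinearMap.baseChange ℂ f.toIntLinearMap
  let T' := LinearMap.baseChange ℂ f'.toIntLinearMap
  have hTT : ∀ v, T' (T v) = (2 : ℂ) • v := by
    intro v
    induction v using TensorProduct.induction_on with
    | zero => rw [map_zero, map_zero, smul_zero]
    | tmul c P =>
      change (LinearMap.baseChange ℂ f'.toIntLinearMap)
        ((LinearMap.baseChange ℂ f.toIntLinearMap) (c ⊗ₜ[ℤ] P)) = _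
      rw [LinearMap.baseChange_tmul, LinearMap.baseChange_tmul]
      change c ⊗ₜ[ℤ] (f' (f P)) = _
      rw [hff, TensorProduct.tmul_add, ← two_smul ℂ]
    | add x y hx hy => rw [map_add, map_add, hx, hy, smul_add]
  have hinj : Function.Injective T := by
    intro v w hvw
    have h1 := hTT v
    rw [hvw, hTT] at h1
    exact (smul_right_injective _ (two_ne_zero (α := ℂ)) h1).symm
  have hmem : ∀ v ∈ PartC F χ W, T v ∈ PartC F χ W' := by
    intro v hv σ
    have hv' := hv σ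
    rw [← map_smul, ← hv']
    generalize v = w
    induction w using TensorProduct.induction_on with
    | zero => simp only [map_zero]
    | tmul c P =>
      change LinearMap.baseChange ℂ _ ((LinearMap.baseChange ℂ f.toIntLinearMap) (c ⊗ₜ[ℤ] P)) =
        (LinearMap.baseChange ℂ f.toIntLinearMap) _
      rw [LinearMap.baseChange_tmul, LinearMap.baseChange_tmul, LinearMap.baseChange_tmul,
        LinearMap.baseChange_tmul]
      exact congrArg (fun x => c ⊗ₜ[ℤ] x) (hnat σ P)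
    | add x y hx hy => simp only [map_add, hx, hy]
  have : Module.Finite ℂ (ℂ ⊗[ℤ] (W'.baseChange F).toAffine.Point) := inferInstance
  let S : PartC F χ W →ₗ[ℂ] PartC F χ W' := T.restrict hmem
  refine LinearMap.finrank_le_finrank_of_injective (f := S) fun v w hvw => ?_
  apply Subtype.ext
  exact hinj (congrArg Subtype.val hvw)

/-- isogenies and the rank -/
theorem rank_iso {F : Type} [Field F] [NumberField F] [DecidableEq F]
    {W W' : WeierstrassCurve ℚ} (θ : NH W W') (θ' : NH W' W)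
    (h : ∀ (L : Type) [Field L] [Algebra ℚ L] (P : Pt W L), θ'.f L (θ.f L P) = P + P)
    (hfg : Module.Finite ℤ (W'.baseChange F).toAffine.Point) :
    Module.finrank ℤ (W.baseChange F).toAffine.Point ≤
      Module.finrank ℤ (W'.baseChange F).toAffine.Point := by
  rename_i inst
  obtain rfl : inst = Classical.decEq F := Subsingleton.elim _ _
  let _ : DecidableEq F := Classical.decEq F
  let f : (W.baseChange F).toAffine.Point →+ (W'.baseChange F).toAffine.Point := θ.f F
  let f' : (W'.baseChange F).toAffine.Point →+ (W.baseChange F).toAffine.Point := θ'.f F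
  have hff : ∀ P, f' (f P) = P + P := fun P => h F P
  have h1 : Module.rank ℤ (W.baseChange F).toAffine.Point ≤
      Module.rank ℤ (W'.baseChange F).toAffine.Point :=
    Pool.Agent.Q17.IG.rank_le' f fun x hx => by
      rw [← hff, hx, map_zero]
  have h2 : Module.rank ℤ (W'.baseChange F).toAffine.Point =
      ((Module.finrank ℤ (W'.baseChange F).toAffine.Point : ℕ) : Cardinal) :=
    (Module.finrank_eq_rank ℤ _).symm
  rw [h2] at h1
  exact Module.finrank_le_of_rank_le h1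

/-- **the averages of `4 ^ m_χ` over the curves with a rational cyclic subgroup of order 4** -/
theorem avg_char4 (N : ℕ) [NeZero N] {F : Type} [Field F] [NumberField F]
    [IsCyclotomicExtension {N} ℚ F] [DecidableEq F] (χ : (F ≃ₐ[ℚ] F) →* ℂˣ) (a : ℕ)
    (h1 : ∀ σ, χ σ ^ (2 ^ (a + 1)) = 1) (h2 : ∃ σ, χ σ ^ (2 ^ a) ≠ 1) :
    ∃ C : ℝ, ∀ H : ℕ, ∑ c ∈ F4 H,
      (4 : ℝ) ^ (Module.finrank ℂ (PartC F χ (Sh c.1 c.2))) ≤ C * ((F4 H).card : ℝ) := by
  refine transfer4 (g' := fun c => (4 : ℝ) ^ (Module.finrank ℂ (PartC F χ (Sh c.1 c.2))))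
    (fun m => by positivity) (fun c m e q u r H L hm => ?_)
    (Pool.Agent.Y669.avg_char N χ a h1 h2)
  obtain ⟨θ, θ', h3⟩ := L.two1
  exact pow_le_pow_right₀ (by norm_num) (part_iso χ θ θ' h3 (fin_E hm))

open scoped Classical in
/-- **the average over an abelian field of 2-power degree** -/
theorem avgL4 (N : ℕ) [NeZero N] {F : Type} [Field F] [NumberField F]
    [IsCyclotomicExtension {N} ℚ F] {L : Type} [Field L] [NumberField L]
    (f : L →ₐ[ℚ] F) {n : ℕ} (hn : Module.finrank ℚ L = 2 ^ n) :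
    ∃ C : ℝ, ∀ H : ℕ, ∑ c ∈ F4 H, (4 : ℝ) ^ ((Module.finrank ℤ
      ((Sh c.1 c.2).baseChange L).toAffine.Point : ℝ) / (2 : ℝ) ^ n) ≤ C * ((F4 H).card : ℝ) := by
  refine transfer4 (g' := fun c => (4 : ℝ) ^ ((Module.finrank ℤ
      ((Sh c.1 c.2).baseChange L).toAffine.Point : ℝ) / (2 : ℝ) ^ n))
    (fun m => by positivity) (fun c m e q u r H Lc hm => ?_)
    (avgL N f hn)
  obtain ⟨θ, θ', h3⟩ := Lc.two1
  refine Real.rpow_le_rpow_of_exponent_le (by norm_num) ?_
  refine div_le_div_of_nonneg_right ?_ (by positivity)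
  exact_mod_cast rank_iso θ θ' h3 (fin_E hm)

end Pool.Agent.Q17.TP
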